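import Pool.Agent.U829.AB.Def

set_option autoImplicit false

/-! # Expansions of finitely many real numbers: definitions

An expansion (`Code`) of a real number `x` is a sequence of digits of `x` in an algebraic base (`DigitCode`) or the
sequence of its partial quotients (`QuotCode`), together with its height function. -/

namespace Pool.Agent.U829.JX

open Pool.Agent.U829.AB

/-- `a` is an expansion of `x` with the height function `h`: a sequence of digits of `x` in one of the bases of `F`,
`x = β^T ∑ a_i β^(-i)`, `|a_i| ≤ B`, or the sequence of the partial quotients of `x` (`x` irrational). -/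
def Code (F : Finset ℝ) (B T : ℕ) (x : ℝ) (a : ℕ → ℤ) (h : ℕ → ℝ) : Prop :=
  DigitCode F B T x a h ∨ QuotCode x a h

/-- Some expansion of `x` is simple up to the height `Z`: for some `n` with `h n ≥ Z` the terms `a_1, ..., a_{n-1}`
can be cut into `p ≤ c log Z` pieces of size `R ≤ Z^θ` (a piece is a single term or of the form `U V V ... V V'`, see
`Piece`), or they are announced by an automaton with `S` states whose announcements are at most `M`,
`S log (M + 3) ≤ Z^θ`, with at most `c log Z` errors. -/
def Simple (F : Finset ℝ) (B T : ℕ) (θ c Z x : ℝ) : Prop :=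
  ∃ (a : ℕ → ℤ) (h : ℕ → ℝ) (n : ℕ), Code F B T x a h ∧ 1 ≤ n ∧ Z ≤ h n ∧
    ((∃ (R : ℝ) (p : ℕ), 1 ≤ R ∧ R ≤ Z ^ θ ∧ (p : ℝ) ≤ c * Real.log Z ∧ Cut a h R 1 p n) ∨
    ∃ (S M : ℕ) (δ : Fin S → ℤ → Fin S) (g : Fin S → ℤ) (s : Fin S), (∀ t, g t ≤ M) ∧
      S * Real.log (M + 3) ≤ Z ^ θ ∧ ((wrong δ g s a 1 n).ncard : ℝ) ≤ c * Real.log Z)

/-- an upper bound for the place `n` in terms of the number of the errors before `n`, for all expansions of `x` and
all automata with `S` states whose announcements are at most `M` -/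
def Hard (F : Finset ℝ) (B T : ℕ) (x A : ℝ) (S M n : ℕ) : Prop :=
  ∀ a h, Code F B T x a h → ∀ (δ : Fin S → ℤ → Fin S) (g : Fin S → ℤ) (s : Fin S), (∀ t, g t ≤ M) →
    (n : ℝ) ≤ S * Real.log (M + 3) * A ^ (2 * (wrong δ g s a 1 n).ncard + 1)

/-- The expansions of the numbers `x i` are jointly irregular. (1) With one constant `A`: all expansions of `x i`
are apart from all expansions of `x j`, `i ≠ j`; if `x i` is algebraic then all expansions of every `x j`, `j ≠ i`,
are irregular by themselves; for all `S`, `M`, `n` all but at most one of the numbers are hard. (2) For every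
`θ < 1` there is `c > 0` such that at every large height `Z` at most one of the numbers has a simple expansion. -/
def JointlyIrregular (F : Finset ℝ) (B T : ℕ) {k : ℕ} (x : Fin k → ℝ) : Prop :=
  (∃ A : ℝ, 1 < A ∧
    (∀ i j, i ≠ j → ∀ a h a' h', Code F B T (x i) a h → Code F B T (x j) a' h' → Apart A a h a' h') ∧
    (∀ i j, i ≠ j → IsAlgebraic ℤ (x i) → ∀ a h, Code F B T (x j) a h → Alone A a h) ∧
    ∀ S M n : ℕ, ∀ i j, ¬ Hard F B T (x i) A S M n → ¬ Hard F B T (x j) A S M n → i = j) ∧
  ∀ θ : ℝ, θ < 1 → ∃ c Z₀ : ℝ, 0 < c ∧ ∀ Z : ℝ, Z₀ ≤ Z → ∀ i j,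
    Simple F B T θ c Z (x i) → Simple F B T θ c Z (x j) → i = j

end Pool.Agent.U829.JX
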