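import Pool.Agent.U829.JX.Def
import Pool.Agent.U829.AB.Final
import Pool.Agent.U455.JA

set_option autoImplicit false

/-! # Expansions of finitely many real numbers: the theorem -/

namespace Pool.Agent.U829.JX

open Pool.Agent.U829.AB
open Pool.Agent.U829.CF (Joint size_S)
open Pool.Agent.R356 (JointR)

lemma pol_code (x : ℝ) (F : Finset ℝ) (hF : ∀ β ∈ F, 1 < β ∧ IsAlgebraic ℤ β) (B T : ℕ) :
    ∃ (D : ℕ) (κ : ℝ), Pol x D κ (Code F B T x) := by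
  obtain ⟨D, κ, h⟩ := pol_bases x F hF B T
  obtain ⟨κ', h'⟩ := pol_quot x
  refine ⟨max D 2, max κ κ', ?_⟩
  rintro a hh (hc | hc)
  · exact h.mono (le_max_left _ _) (le_max_left _ _) a hh hc
  · exact h'.mono (le_max_right _ _) (le_max_right _ _) a hh hc

lemma slow_code (x : ℝ) (F : Finset ℝ) (hF : ∀ β ∈ F, 1 < β ∧ IsAlgebraic ℤ β) (B T : ℕ) :
    ∃ c : ℝ, Slow c (Code F B T x) := by
  obtain ⟨D, κ, h⟩ := pol_bases x F hF B T
  obtain ⟨κ', h'⟩ := pol_quot x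
  obtain ⟨c, hc⟩ := slow_base x F hF B T
  refine ⟨max c 3, ?_⟩
  rintro a hh (hd | hd)
  · exact hc.mono (le_max_left _ _) (fun a hh h1 => (h a hh h1).1) a hh hd
  · exact (slow_quot x).mono (le_max_right _ _) (fun a hh h1 => (h' a hh h1).1) a hh hd

/-- pieces of a larger size -/
lemma cut_size {a : ℕ → ℤ} {h : ℕ → ℝ} {R R' : ℝ} {m p n : ℕ} (hR : R ≤ R') (hc : Cut a h R m p n) :
    Cut a h R' m p n := by
  obtain ⟨c, h0, hp, hj⟩ := hc
  refine ⟨c, h0, hp, fun j hj' => ?_⟩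
  obtain ⟨h1, h2⟩ := hj j hj'
  refine ⟨h1, ?_⟩
  rcases h2 with h2 | ⟨r, k, g1, g2, g3, g4, g5⟩
  · exact Or.inl h2
  · exact Or.inr ⟨r, k, g1, g2, g3, by linarith, g5⟩

/-- a simple expansion can be cut into few pieces -/
lemma cut_of_simple {x : ℝ} {F : Finset ℝ} {B T : ℕ} {r : ℝ} (hr : 1 ≤ r) (hS : Slow r (Code F B T x))
    {θ c Z : ℝ} (hZ : 0 ≤ c * Real.log Z) (hθ : 1 ≤ Z ^ θ) (h : Simple F B T θ c Z x) :
    ∃ (a : ℕ → ℤ) (hh : ℕ → ℝ) (n p : ℕ), Code F B T x a hh ∧ Z ≤ hh n ∧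
      (p : ℝ) ≤ 2 * (c * Real.log Z + 1) ∧ Cut a hh (Z ^ θ * r) 1 p n := by
  obtain ⟨a, hh, n, hcode, hn, hZn, h1 | h1⟩ := h
  · obtain ⟨R, p, hR, hR', hp, hc⟩ := h1
    refine ⟨a, hh, n, p, hcode, hZn, by linarith, cut_size ?_ hc⟩
    nlinarith
  · obtain ⟨S, M, δ, g, s, hg, hSM, hE⟩ := h1
    obtain ⟨p, hp, hc⟩ := cut_of_wrong δ g s a hh _ (grow_of hS hcode M δ g s hg) 1 le_rfl n hn
    refine ⟨a, hh, n, p, hcode, hZn, ?_, cut_size ?_ hc⟩
    · have : (p : ℝ) ≤ ((2 * (wrong δ g s a 1 n).ncard + 1 : ℕ) : ℝ) := by exact_mod_cast hp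
      push_cast at this
      linarith
    · nlinarith

/-- the constant `c` and the height `Z₀` -/
lemma choose_c (A r θ : ℝ) (hA : 1 < A) (hr : 1 ≤ r) (hθ : θ < 1) (hθ0 : 0 ≤ θ) :
    ∃ c Z₀ : ℝ, 0 < c ∧ 1 < Z₀ ∧ ∀ Z : ℝ, Z₀ ≤ Z → ∀ p p' : ℕ, (p : ℝ) ≤ 2 * (c * Real.log Z + 1) →
      (p' : ℝ) ≤ 2 * (c * Real.log Z + 1) → (Z ^ θ * r + r) * A ^ (p + p') < Z := by
  have hlA : 0 < Real.log A := Real.log_pos hA
  obtain ⟨η, hη⟩ : ∃ η : ℝ, η = (1 - θ) / 2 := ⟨_, rfl⟩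
  have hη0 : 0 < η := by rw [hη]; linarith
  obtain ⟨K, hK⟩ : ∃ K : ℝ, K = 2 * r * A ^ 4 := ⟨_, rfl⟩
  have hK0 : 0 < K := by rw [hK]; positivity
  have hev : ∀ᶠ Z : ℝ in Filter.atTop, K < Z ^ η :=
    (tendsto_rpow_atTop hη0).eventually_gt_atTop K
  obtain ⟨Z₁, hZ₁⟩ := Filter.eventually_atTop.1 hev
  refine ⟨η / (4 * Real.log A), max 2 Z₁, by positivity, lt_of_lt_of_le (by norm_num) (le_max_left _ _), ?_⟩
  intro Z hZ p p' hp hp'
  have hZ2 : 2 ≤ Z := (le_max_left _ _).trans hZ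
  have hZ0 : 0 < Z := by linarith
  have h1 := hZ₁ Z ((le_max_right _ _).trans hZ)
  have hθ1 : 1 ≤ Z ^ θ := Real.one_le_rpow (by linarith) hθ0
  have e1 : A ^ (p + p') ≤ A ^ 4 * Z ^ η := by
    rw [← Real.rpow_natCast A (p + p')]
    have h2 : ((p + p' : ℕ) : ℝ) ≤ 4 + η * Real.log Z / Real.log A := by
      push_cast
      have : η / (4 * Real.log A) * Real.log Z = η * Real.log Z / Real.log A / 4 := by
        field_simp
      rw [this] at hp hp'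
      linarith
    have h3 : A ^ (((p + p' : ℕ) : ℝ)) ≤ A ^ (4 + η * Real.log Z / Real.log A) :=
      Real.rpow_le_rpow_of_exponent_le hA.le h2
    refine h3.trans (le_of_eq ?_)
    rw [Real.rpow_add (by linarith)]
    congr 1
    · exact_mod_cast Real.rpow_natCast A 4
    · rw [Real.rpow_def_of_pos (by linarith), Real.rpow_def_of_pos hZ0]
      congr 1
      field_simp
  have e2 : Z ^ θ * r + r ≤ 2 * r * Z ^ θ := by nlinarith
  have e3 : Z = Z ^ θ * Z ^ η * Z ^ η := by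
    rw [← Real.rpow_add hZ0, ← Real.rpow_add hZ0]
    have : θ + η + η = 1 := by rw [hη]; ring
    rw [this, Real.rpow_one]
  have hZη : 0 < Z ^ η := Real.rpow_pos_of_pos hZ0 _
  calc (Z ^ θ * r + r) * A ^ (p + p') ≤ (2 * r * Z ^ θ) * (A ^ 4 * Z ^ η) := by gcongr
    _ = K * (Z ^ θ * Z ^ η) := by rw [hK]; ring
    _ < Z ^ η * (Z ^ θ * Z ^ η) := by
        apply mul_lt_mul_of_pos_right h1
        positivity
    _ = Z := by rw [mul_comm]; exact e3.symm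

theorem jointlyIrregular (F : Finset ℝ) (hF : ∀ β ∈ F, 1 < β ∧ IsAlgebraic ℤ β) (B T : ℕ) {k : ℕ}
    (x : Fin k → ℝ) (hx : ∀ i j, i ≠ j → JointR (x i) (x j)) : JointlyIrregular F B T x := by
  have hj : ∀ i j, i ≠ j → ∀ D, Joint (x i) (x j) D := fun i j hij D => hx i j hij D
  have hpos : ∀ i a hh, Code F B T (x i) a hh → ∀ n, 0 ≤ hh n := by
    intro i a hh hc
    obtain ⟨D, κ, h⟩ := pol_code (x i) F hF B T
    exact (h a hh hc).1
  have hpair : ∀ p : Fin k × Fin k, ∃ A : ℝ, 1 < A ∧ (p.1 ≠ p.2 →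
      (∀ a h a' h', Code F B T (x p.1) a h → Code F B T (x p.2) a' h' → Apart A a h a' h') ∧
      (IsAlgebraic ℤ (x p.1) → ∀ a h, Code F B T (x p.2) a h → Alone A a h)) := by
    rintro ⟨i, j⟩
    by_cases hij : i = j
    · exact ⟨2, by norm_num, fun h => absurd hij h⟩
    · obtain ⟨D, κ, hp⟩ := pol_code (x i) F hF B T
      obtain ⟨D', κ', hp'⟩ := pol_code (x j) F hF B T
      obtain ⟨c, hc⟩ := slow_code (x i) F hF B T
      obtain ⟨c', hc'⟩ := slow_code (x j) F hF B T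
      obtain ⟨A₁, hA₁, h1⟩ := apart (hj i j hij) hp hp' hc hc'
      have htwo : ∃ A₂ : ℝ, 1 < A₂ ∧ (IsAlgebraic ℤ (x i) → ∀ a hh, Code F B T (x j) a hh → Alone A₂ a hh) := by
        by_cases hu : IsAlgebraic ℤ (x i)
        · obtain ⟨A₂, hA₂, h2⟩ := alone (hj i j hij) hu hp' hc'
          exact ⟨A₂, hA₂, fun _ => h2⟩
        · exact ⟨2, by norm_num, fun h => absurd h hu⟩
      obtain ⟨A₂, hA₂, h2⟩ := htwo
      refine ⟨max A₁ A₂, lt_of_lt_of_le hA₁ (le_max_left _ _), fun _ => ⟨?_, ?_⟩⟩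
      · intro a hh a' hh' g1 g2
        exact (h1 a hh a' hh' g1 g2).mono (by linarith) (le_max_left _ _) (hpos i a hh g1)
      · intro hu a hh g1
        exact (h2 hu a hh g1).mono (by linarith) (le_max_right _ _) (hpos j a hh g1)
  choose A hA hI using hpair
  obtain ⟨M₀, hM₀⟩ : ∃ M : ℝ, ∀ p, A p ≤ M := by
    obtain ⟨M, hM⟩ := (Set.finite_range A).bddAbove
    exact ⟨M, fun p => hM ⟨p, rfl⟩⟩
  obtain ⟨A', hA'⟩ : ∃ A' : ℝ, A' = max 2 M₀ := ⟨_, rfl⟩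
  have hA'1 : 1 < A' := by rw [hA']; exact lt_of_lt_of_le (by norm_num) (le_max_left _ _)
  have hle : ∀ p, A p ≤ A' := fun p => by rw [hA']; exact (hM₀ p).trans (le_max_right _ _)
  have hap : ∀ i j, i ≠ j → ∀ a h a' h', Code F B T (x i) a h → Code F B T (x j) a' h' →
      Apart A' a h a' h' := fun i j hij a h a' h' g1 g2 =>
    ((hI (i, j) hij).1 a h a' h' g1 g2).mono (by linarith [hA (i, j)]) (hle (i, j)) (hpos i a h g1)
  refine ⟨⟨A', hA'1, hap, ?_, ?_⟩, ?_⟩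
  · intro i j hij hu a h g1
    exact ((hI (i, j) hij).2 hu a h g1).mono (by linarith [hA (i, j)]) (hle (i, j)) (hpos j a h g1)
  · intro S M n i j hi hj'
    by_contra hij
    unfold Hard at hi hj'
    push Not at hi hj'
    obtain ⟨a, hh, hcode, δ, g, s, hg, h1⟩ := hi
    obtain ⟨a', hh', hcode', δ', g', s', hg', h2⟩ := hj'
    have h3 := ((hap i j hij a hh a' hh' hcode hcode').2 S M δ δ' g g' s s' hg hg').2 n
    have h4 := (size_S s M).1
    obtain ⟨E, hE⟩ : ∃ E, E = (wrong δ g s a 1 n).ncard := ⟨_, rfl⟩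
    obtain ⟨E', hE'⟩ : ∃ E', E' = (wrong δ' g' s' a' 1 n).ncard := ⟨_, rfl⟩
    rw [← hE] at h1 h3
    rw [← hE'] at h2 h3
    have h5 : A' ^ (E + E' + 1) ≤ max (A' ^ (2 * E + 1)) (A' ^ (2 * E' + 1)) := by
      rcases le_total E E' with h6 | h6
      · exact (pow_le_pow_right₀ hA'1.le (by omega)).trans (le_max_right _ _)
      · exact (pow_le_pow_right₀ hA'1.le (by omega)).trans (le_max_left _ _)
    have h6 : S * Real.log ((M : ℝ) + 3) * A' ^ (E + E' + 1) < n := by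
      rcases le_max_iff.1 h5 with h7 | h7
      · refine lt_of_le_of_lt ?_ h1
        gcongr
      · refine lt_of_le_of_lt ?_ h2
        gcongr
    linarith
  · intro θ hθ
    have hslow : ∀ i, ∃ c : ℝ, Slow c (Code F B T (x i)) := fun i => slow_code (x i) F hF B T
    choose c₀ hc₀ using hslow
    obtain ⟨r₀, hr₀⟩ : ∃ M : ℝ, ∀ i, c₀ i ≤ M := by
      obtain ⟨M, hM⟩ := (Set.finite_range c₀).bddAbove
      exact ⟨M, fun p => hM ⟨p, rfl⟩⟩
    obtain ⟨r, hr⟩ : ∃ r : ℝ, r = max 1 r₀ := ⟨_, rfl⟩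
    have hr1 : 1 ≤ r := by rw [hr]; exact le_max_left _ _
    have hsl : ∀ i, Slow r (Code F B T (x i)) := fun i =>
      (hc₀ i).mono ((hr₀ i).trans (by rw [hr]; exact le_max_right _ _)) (hpos i)
    obtain ⟨c, Z₀, hc, hZ₀, H⟩ := choose_c A' r (max θ 0) hA'1 hr1 (max_lt hθ one_pos) (le_max_right _ _)
    refine ⟨c, Z₀, hc, ?_⟩
    intro Z hZ i j hi hj'
    by_contra hij
    have hZ1 : 1 < Z := lt_of_lt_of_le hZ₀ hZ
    have hlog : 0 ≤ Real.log Z := Real.log_nonneg hZ1.le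
    have hmono : ∀ i, Simple F B T θ c Z (x i) → Simple F B T (max θ 0) c Z (x i) := by
      rintro i ⟨a, hh, n, g1, g2, g3, g4⟩
      have h1 : Z ^ θ ≤ Z ^ (max θ 0) := Real.rpow_le_rpow_of_exponent_le hZ1.le (le_max_left _ _)
      refine ⟨a, hh, n, g1, g2, g3, ?_⟩
      rcases g4 with ⟨R, p, k1, k2, k3, k4⟩ | ⟨S, M, δ, g, s, k1, k2, k3⟩
      · exact Or.inl ⟨R, p, k1, k2.trans h1, k3, k4⟩
      · exact Or.inr ⟨S, M, δ, g, s, k1, k2.trans h1, k3⟩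
    have hθ1 : 1 ≤ Z ^ (max θ 0) := Real.one_le_rpow hZ1.le (le_max_right _ _)
    obtain ⟨a, hh, n, p, k1, k2, k3, k4⟩ := cut_of_simple hr1 (hsl i) (by positivity) hθ1 (hmono i hi)
    obtain ⟨a', hh', n', p', l1, l2, l3, l4⟩ := cut_of_simple hr1 (hsl j) (by positivity) hθ1 (hmono j hj')
    have h1 := (hap i j hij a hh a' hh' k1 l1).1 (Z ^ (max θ 0) * r) 1 p n 1 p' n' (by nlinarith) le_rfl le_rfl
      k4 l4
    have h2 := H Z hZ p p' k3 l3
    have h3 : max (hh 1) (hh' 1) ≤ r := max_le ((hsl i) a hh k1).2.2 ((hsl j) a' hh' l1).2.2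
    have h4 : Z ≤ min (hh n) (hh' n') := le_min k2 l2
    have h5 : (Z ^ (max θ 0) * r + max (hh 1) (hh' 1)) * A' ^ (p + p') ≤
        (Z ^ (max θ 0) * r + r) * A' ^ (p + p') := by
      have : 0 ≤ A' ^ (p + p') := by positivity
      gcongr
    linarith

end Pool.Agent.U829.JX
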