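import Pool.Agent.U829.JX.Main

set_option autoImplicit false

/-! # Affine functions of a number with coefficients which are rational polynomials in another one -/

namespace Pool.Agent.U829.JX

open Polynomial
open Pool.Agent.R356 (JointR)
open Pool.Agent.TH456.TM
open Pool.Agent.R473.JC

theorem mem_left (u v : ℝ) : u ∈ Algebra.adjoin ℤ ({u, v} : Set ℝ) := Algebra.subset_adjoin (by simp)

theorem mem_right (u v : ℝ) : v ∈ Algebra.adjoin ℤ ({u, v} : Set ℝ) := Algebra.subset_adjoin (by simp)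

/-- `m u = A(x) t + B(x)`, `m v = A'(x) t + B'(x)` -/
theorem joint_aff (x : ℝ) (hx : MeasT (x : ℂ)) (t u v : ℝ) (m : ℤ) (A B A' B' : ℤ[X])
    (hu : (m : ℝ) * u = aeval x A * t + aeval x B) (hv : (m : ℝ) * v = aeval x A' * t + aeval x B')
    (h : max A.natDegree A'.natDegree < (A' * B - A * B').natDegree) : JointR u v := by
  have hval : ∀ f : ℤ[X], aeval x (f.map (Int.castRingHom (Algebra.adjoin ℤ ({u, v} : Set ℝ)))) =
      aeval x f := by
    intro f
    rw [aeval_def, eval₂_map]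
    have h1 : (algebraMap (Algebra.adjoin ℤ ({u, v} : Set ℝ)) ℝ).comp
        (Int.castRingHom _) = algebraMap ℤ ℝ := RingHom.ext_int _ _
    rw [h1, ← aeval_def]
  have hinj : Function.Injective (Int.castRingHom (Algebra.adjoin ℤ ({u, v} : Set ℝ))) :=
    RingHom.injective_int _
  have hdeg : ∀ f : ℤ[X], (f.map (Int.castRingHom (Algebra.adjoin ℤ ({u, v} : Set ℝ)))).natDegree =
      f.natDegree := fun f => natDegree_map_eq_of_injective hinj f
  have hmu : (m : ℝ) * u ∈ Algebra.adjoin ℤ ({u, v} : Set ℝ) := mul_mem (intCast_mem _ m) (mem_left u v)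
  have hmv : (m : ℝ) * v ∈ Algebra.adjoin ℤ ({u, v} : Set ℝ) := mul_mem (intCast_mem _ m) (mem_right u v)
  obtain ⟨R, hR⟩ : ∃ R : (Algebra.adjoin ℤ ({u, v} : Set ℝ))[X],
      R = C (⟨(m : ℝ) * u, hmu⟩ : Algebra.adjoin ℤ ({u, v} : Set ℝ)) * A'.map (Int.castRingHom _) -
        C (⟨(m : ℝ) * v, hmv⟩ : Algebra.adjoin ℤ ({u, v} : Set ℝ)) * A.map (Int.castRingHom _) := ⟨_, rfl⟩
  have hRd : R.natDegree ≤ max A.natDegree A'.natDegree := by
    rw [hR]
    refine (natDegree_sub_le _ _).trans ?_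
    refine max_le ?_ ?_
    · refine (natDegree_C_mul_le _ _).trans ?_
      rw [hdeg]; exact le_max_right _ _
    · refine (natDegree_C_mul_le _ _).trans ?_
      rw [hdeg]; exact le_max_left _ _
  refine jointR_of_alg x hx u v (alg_of_eq u v x
    (R - (A' * B - A * B').map (Int.castRingHom _)) ?_ 0 (zero_mem _) ?_)
  · have h1 : (R - (A' * B - A * B').map (Int.castRingHom _)).natDegree =
        (A' * B - A * B').natDegree := by
      rw [natDegree_sub_eq_right_of_natDegree_lt]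
      · exact hdeg _
      · rw [hdeg]; exact lt_of_le_of_lt hRd h
    rw [h1]
    omega
  · rw [map_sub, hval, hR, map_sub, map_mul, map_mul, hval, hval, aeval_C, aeval_C, map_sub,
      map_mul, map_mul]
    change (m : ℝ) * u * aeval x A' - (m : ℝ) * v * aeval x A - _ = 0
    rw [hu, hv]
    ring

theorem int_of_dvd (q : ℚ) (m : ℤ) (h : (q.den : ℤ) ∣ m) : ∃ k : ℤ, (k : ℝ) = m * (q : ℝ) := by
  obtain ⟨r, rfl⟩ := h
  refine ⟨r * q.num, ?_⟩
  have h1 : (q.den : ℝ) * (q : ℝ) = q.num := by exact_mod_cast Rat.den_mul_eq_num q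
  push_cast
  rw [← h1]
  ring

/-- `t - a x^2 - c x^4` for different pairs `(a, c)` of rational numbers -/
theorem joint_tail (x : ℝ) (hx : MeasT (x : ℂ)) (t : ℝ) (a c a' c' : ℚ) (h : a ≠ a' ∨ c ≠ c') :
    JointR (t - a * x ^ 2 - c * x ^ 4) (t - a' * x ^ 2 - c' * x ^ 4) := by
  obtain ⟨m, hm⟩ : ∃ m : ℤ, m = a.den * c.den * a'.den * c'.den := ⟨_, rfl⟩
  have hm0 : m ≠ 0 := by
    rw [hm]
    have h1 := a.den_pos
    have h2 := c.den_pos
    have h3 := a'.den_pos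
    have h4 := c'.den_pos
    positivity
  obtain ⟨k₁, hk₁⟩ := int_of_dvd a m (by rw [hm]; exact ⟨c.den * a'.den * c'.den, by ring⟩)
  obtain ⟨k₂, hk₂⟩ := int_of_dvd c m (by rw [hm]; exact ⟨a.den * a'.den * c'.den, by ring⟩)
  obtain ⟨k₃, hk₃⟩ := int_of_dvd a' m (by rw [hm]; exact ⟨a.den * c.den * c'.den, by ring⟩)
  obtain ⟨k₄, hk₄⟩ := int_of_dvd c' m (by rw [hm]; exact ⟨a.den * c.den * a'.den, by ring⟩)
  have hmr : (m : ℝ) ≠ 0 := by exact_mod_cast hm0
  refine joint_aff x hx t _ _ m (C m) (-(C k₁ * X ^ 2) - C k₂ * X ^ 4) (C m)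
    (-(C k₃ * X ^ 2) - C k₄ * X ^ 4) ?_ ?_ ?_
  · simp only [map_sub, map_neg, map_mul, map_pow, aeval_C, aeval_X]
    simp only [algebraMap_int_eq, eq_intCast]
    rw [hk₁, hk₂]
    ring
  · simp only [map_sub, map_neg, map_mul, map_pow, aeval_C, aeval_X]
    simp only [algebraMap_int_eq, eq_intCast]
    rw [hk₃, hk₄]
    ring
  · have e : C m * (-(C k₁ * X ^ 2) - C k₂ * X ^ 4) - C m * (-(C k₃ * X ^ 2) - C k₄ * X ^ 4) =
        C (m * (k₃ - k₁)) * X ^ 2 + C (m * (k₄ - k₂)) * X ^ 4 := by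
      simp only [map_mul, map_sub]
      ring
    rw [e, natDegree_C, max_self]
    rcases h with h | h
    · have h1 : k₃ - k₁ ≠ 0 := by
        intro h0
        apply h
        have : (k₃ : ℝ) = k₁ := by exact_mod_cast sub_eq_zero.1 h0
        rw [hk₁, hk₃] at this
        exact_mod_cast (mul_left_cancel₀ hmr this).symm
      have h2 : (C (m * (k₃ - k₁)) * X ^ 2 + C (m * (k₄ - k₂)) * X ^ 4).coeff 2 ≠ 0 := by
        rw [coeff_add, coeff_C_mul_X_pow, coeff_C_mul_X_pow]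
        norm_num
        exact ⟨hm0, h1⟩
      have := le_natDegree_of_ne_zero h2
      omega
    · have h1 : k₄ - k₂ ≠ 0 := by
        intro h0
        apply h
        have : (k₄ : ℝ) = k₂ := by exact_mod_cast sub_eq_zero.1 h0
        rw [hk₂, hk₄] at this
        exact_mod_cast (mul_left_cancel₀ hmr this).symm
      have h2 : (C (m * (k₃ - k₁)) * X ^ 2 + C (m * (k₄ - k₂)) * X ^ 4).coeff 4 ≠ 0 := by
        rw [coeff_add, coeff_C_mul_X_pow, coeff_C_mul_X_pow]
        norm_num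
        exact ⟨hm0, h1⟩
      have := le_natDegree_of_ne_zero h2
      omega

/-- `(e x^2 - b) t - a x^2 - c x^4` for triples of rational numbers off a surface -/
theorem joint_triple (x : ℝ) (hx : MeasT (x : ℂ)) (t : ℝ) (e a b c a' b' c' : ℚ) (he : e ≠ 0)
    (h : c ≠ c' ∨ e * (a' - a) + (b' * c - b * c') ≠ 0) :
    JointR ((e * x ^ 2 - b) * t - a * x ^ 2 - c * x ^ 4) ((e * x ^ 2 - b') * t - a' * x ^ 2 - c' * x ^ 4) := by
  obtain ⟨m, hm⟩ : ∃ m : ℤ, m = e.den * a.den * b.den * c.den * a'.den * b'.den * c'.den := ⟨_, rfl⟩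
  have hm0 : m ≠ 0 := by
    rw [hm]
    have h1 := a.den_pos
    have h2 := c.den_pos
    have h3 := a'.den_pos
    have h4 := c'.den_pos
    have h5 := b.den_pos
    have h6 := b'.den_pos
    have h7 := e.den_pos
    positivity
  obtain ⟨k₀, hk₀⟩ := int_of_dvd e m (by rw [hm]; exact ⟨a.den * b.den * c.den * a'.den * b'.den * c'.den, by ring⟩)
  obtain ⟨k₁, hk₁⟩ := int_of_dvd a m (by rw [hm]; exact ⟨e.den * b.den * c.den * a'.den * b'.den * c'.den, by ring⟩)
  obtain ⟨k₂, hk₂⟩ := int_of_dvd c m (by rw [hm]; exact ⟨e.den * a.den * b.den * a'.den * b'.den * c'.den, by ring⟩)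
  obtain ⟨k₃, hk₃⟩ := int_of_dvd a' m (by rw [hm]; exact ⟨e.den * a.den * b.den * c.den * b'.den * c'.den, by ring⟩)
  obtain ⟨k₄, hk₄⟩ := int_of_dvd c' m (by rw [hm]; exact ⟨e.den * a.den * b.den * c.den * a'.den * b'.den, by ring⟩)
  obtain ⟨k₅, hk₅⟩ := int_of_dvd b m (by rw [hm]; exact ⟨e.den * a.den * c.den * a'.den * b'.den * c'.den, by ring⟩)
  obtain ⟨k₆, hk₆⟩ := int_of_dvd b' m (by rw [hm]; exact ⟨e.den * a.den * b.den * c.den * a'.den * c'.den, by ring⟩)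
  have hmr : (m : ℝ) ≠ 0 := by exact_mod_cast hm0
  have her : (e : ℝ) ≠ 0 := by exact_mod_cast he
  have hk0 : k₀ ≠ 0 := by
    intro h0
    rw [h0, Int.cast_zero] at hk₀
    exact (mul_ne_zero hmr her) hk₀.symm
  refine joint_aff x hx t _ _ m (C k₀ * X ^ 2 - C k₅) (-(C k₁ * X ^ 2) - C k₂ * X ^ 4) (C k₀ * X ^ 2 - C k₆)
    (-(C k₃ * X ^ 2) - C k₄ * X ^ 4) ?_ ?_ ?_
  · simp only [map_sub, map_neg, map_mul, map_pow, aeval_C, aeval_X]
    simp only [algebraMap_int_eq, eq_intCast]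
    rw [hk₀, hk₁, hk₂, hk₅]
    ring
  · simp only [map_sub, map_neg, map_mul, map_pow, aeval_C, aeval_X]
    simp only [algebraMap_int_eq, eq_intCast]
    rw [hk₀, hk₃, hk₄, hk₆]
    ring
  · have hE : (C k₀ * X ^ 2 - C k₆) * (-(C k₁ * X ^ 2) - C k₂ * X ^ 4) -
        (C k₀ * X ^ 2 - C k₅) * (-(C k₃ * X ^ 2) - C k₄ * X ^ 4) =
        C (k₀ * (k₄ - k₂)) * X ^ 6 + C (k₀ * (k₃ - k₁) + (k₆ * k₂ - k₅ * k₄)) * X ^ 4 +
          C (k₆ * k₁ - k₅ * k₃) * X ^ 2 := by
      simp only [map_mul, map_sub, map_add]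
      ring
    have hd : ∀ k : ℤ, (C k₀ * X ^ 2 - C k : ℤ[X]).natDegree ≤ 2 := by
      intro k
      refine (natDegree_sub_C (a := k)).le.trans ?_
      exact natDegree_C_mul_X_pow_le _ _
    rw [hE]
    refine lt_of_le_of_lt (max_le (hd k₅) (hd k₆)) ?_
    by_cases hc : c = c'
    · have h1 : k₀ * (k₃ - k₁) + (k₆ * k₂ - k₅ * k₄) ≠ 0 := by
        rcases h with h | h
        · exact absurd hc h
        · intro h0
          apply h
          have h2 : ((k₀ * (k₃ - k₁) + (k₆ * k₂ - k₅ * k₄) : ℤ) : ℝ) = 0 := by rw [h0]; simp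
          push_cast at h2
          rw [hk₀, hk₁, hk₂, hk₃, hk₄, hk₅, hk₆] at h2
          have h3 : (m : ℝ) * m * ((e : ℝ) * (a' - a) + (b' * c - b * c')) = 0 := by
            linear_combination h2
          have h4 : (e : ℝ) * (a' - a) + (b' * c - b * c') = 0 :=
            (mul_eq_zero.1 h3).resolve_left (mul_ne_zero hmr hmr)
          exact_mod_cast h4
      have h2 : (C (k₀ * (k₄ - k₂)) * X ^ 6 + C (k₀ * (k₃ - k₁) + (k₆ * k₂ - k₅ * k₄)) * X ^ 4 +
          C (k₆ * k₁ - k₅ * k₃) * X ^ 2 : ℤ[X]).coeff 4 ≠ 0 := by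
        rw [coeff_add, coeff_add, coeff_C_mul_X_pow, coeff_C_mul_X_pow, coeff_C_mul_X_pow]
        simpa using h1
      have := le_natDegree_of_ne_zero h2
      omega
    · have h1 : k₀ * (k₄ - k₂) ≠ 0 := by
        refine mul_ne_zero hk0 ?_
        intro h0
        apply hc
        have : (k₄ : ℝ) = k₂ := by exact_mod_cast sub_eq_zero.1 h0
        rw [hk₂, hk₄] at this
        exact_mod_cast (mul_left_cancel₀ hmr this).symm
      have h2 : (C (k₀ * (k₄ - k₂)) * X ^ 6 + C (k₀ * (k₃ - k₁) + (k₆ * k₂ - k₅ * k₄)) * X ^ 4 +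
          C (k₆ * k₁ - k₅ * k₃) * X ^ 2 : ℤ[X]).coeff 6 ≠ 0 := by
        rw [coeff_add, coeff_add, coeff_C_mul_X_pow, coeff_C_mul_X_pow, coeff_C_mul_X_pow]
        simpa using h1
      have := le_natDegree_of_ne_zero h2
      omega

end Pool.Agent.U829.JX
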